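import Pool.Agent.Helper2.AV.TDefs
import Pool.Agent.Helper55.AV.DAb
import Pool.Agent.Helper16.UN.GA
import Pool.Agent.Helper93.UN.GB

/-!
Semisimple Mumford-Tate pairs: from matrices to operators (block MX).
-/

set_option linter.unusedSimpArgs false
set_option linter.unusedSectionVars false
set_option linter.unusedVariables false

open Module

attribute [local instance 100] LieRing.ofAssociativeRing

namespace AV

open MTP UN MTPairs

namespace MX

variable {K : Type*} [Field K] {m : Type*} [Fintype m] [DecidableEq m]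
  {Γ : Subgroup (Equiv.Perm (m → K))} {J : Matrix m m K}
  {G : Subgroup (Matrix.GeneralLinearGroup m K)} {π : Matrix m m K}

lemma stab_iff_sub {U : Submodule K (m → K)} : Stab (GE G) U ↔ IsSub G U := by
  constructor
  · intro h g hg v hv
    have := h _ (GA.toLin_mem hg) v hv
    rwa [Matrix.toLin'_apply] at this
  · rintro h _ ⟨g, hg, rfl⟩ v hv
    rw [Matrix.toLin'_apply]
    exact h g hg v hv

/-- The Lie algebra of `G`, up to central elements of the algebra `A`. -/
def gN (A : Subalgebra K (Module.End K (m → K))) (G : Subgroup (Matrix.GeneralLinearGroup m K)) :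
    Submodule K (Module.End K (m → K)) where
  carrier := {x | ∃ a z : Module.End K (m → K),
    LinearMap.toMatrix' a ∈ lieOf (Matrix.stdBasis K m m) (gM G) ∧ a ∈ A ∧
    z ∈ A ∧ (∀ b ∈ A, z * b = b * z) ∧ x = a + z}
  add_mem' := by
    rintro _ _ ⟨a, z, ha, haA, hzA, hz, rfl⟩ ⟨a', z', ha', haA', hzA', hz', rfl⟩
    refine ⟨a + a', z + z', ?_, A.add_mem haA haA', A.add_mem hzA hzA', ?_, by abel⟩
    · rw [map_add]; exact lieOf_add ha ha'
    · intro b hb
      rw [add_mul, mul_add, hz b hb, hz' b hb]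
  zero_mem' := ⟨0, 0, by rw [map_zero]; exact lieOf_zero, A.zero_mem, A.zero_mem,
    by intro b _; simp, by simp⟩
  smul_mem' := by
    rintro c _ ⟨a, z, ha, haA, hzA, hz, rfl⟩
    refine ⟨c • a, c • z, ?_, A.smul_mem haA c, A.smul_mem hzA c, ?_, by rw [smul_add]⟩
    · rw [map_smul]; exact lieOf_smul c ha
    · intro b hb
      rw [smul_mul_assoc, mul_smul_comm, hz b hb]

lemma gb_br {A : Subalgebra K (Module.End K (m → K))} {x y : Module.End K (m → K)}
    (hx : x ∈ gN A G) (hy : y ∈ gN A G) :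
    LinearMap.toMatrix' (x * y - y * x) ∈ lieOf (Matrix.stdBasis K m m) (gM G) ∧
      (x * y - y * x) ∈ A := by
  obtain ⟨a, z, ha, haA, hzA, hz, rfl⟩ := hx
  obtain ⟨a', z', ha', haA', hzA', hz', rfl⟩ := hy
  have e : (a + z) * (a' + z') - (a' + z') * (a + z) = a * a' - a' * a := by
    simp only [add_mul, mul_add, hz a' haA', hz z' hzA', hz' a haA]
    abel
  rw [e]
  constructor
  · rw [map_sub, LinearMap.toMatrix'_mul, LinearMap.toMatrix'_mul]
    exact lieOf_comm ha ha'
  · exact A.sub_mem (A.mul_mem haA haA') (A.mul_mem haA' haA)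

lemma bl_of_bls {V : Type*} [AddCommGroup V] [Module K V] [FiniteDimensional K V]
    {A : Subalgebra K (Module.End K V)} {ε : Module.End K V} (h : ε ∈ bls A) : Bl A ε := by
  classical
  unfold bls at h
  split_ifs at h with hf
  · exact hf.mem_toFinset.mp h
  · exact absurd h (Finset.notMem_empty _)

lemma ml_le [CharZero K] (D : IsStrongMTPair Γ J G π) :
    ML (GE G) (TE Γ) (Matrix.toLin' π) ≤ gN (AA (GE G) (TE Γ) (Matrix.toLin' π)) G := by
  apply lieGen_le
  · intro x hx y hy
    obtain ⟨h1, h2⟩ := gb_br hx hy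
    exact ⟨_, 0, h1, h2, Subalgebra.zero_mem _, by intro b _; simp, by simp⟩
  · rintro _ ⟨p, hp, rfl⟩
    have hco := smat_cochar D (gb_conj hp)
    have hGE : ∀ t : K, t ≠ 0 → ∃ g ∈ G, 1 + (t - 1) • LinearMap.toMatrix' p =
        (g : Matrix m m K) := by
      intro t ht
      obtain ⟨g, hg, hgt⟩ := hco.2 t ht
      refine ⟨g, hg, ?_⟩
      rw [hgt]; module
    refine ⟨p, ∑ ε ∈ bls (AA (GE G) (TE Γ) (Matrix.toLin' π)),
      (-(LinearMap.trace K (m → K) (p * ε) / LinearMap.trace K (m → K) ε)) • ε, ?_,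
      Algebra.subset_adjoin hp, ?_, ?_, ?_⟩
    · apply lieOf_cochar
      · rintro _ ⟨g, hg, rfl⟩ _ ⟨h, hh, rfl⟩
        exact ⟨g * h, G.mul_mem hg hh, rfl⟩
      · exact hGE
    · apply Subalgebra.sum_mem
      intro ε hε
      exact Subalgebra.smul_mem _ (bl_of_bls hε).mem _
    · intro b hb
      rw [Finset.sum_mul, Finset.mul_sum]
      apply Finset.sum_congr rfl
      intro ε hε
      rw [smul_mul_assoc, mul_smul_comm, (bl_of_bls hε).cen b hb]
    · unfold nzb
      rw [sub_eq_iff_eq_add, add_assoc, ← Finset.sum_add_distrib, Finset.sum_eq_zero, add_zero]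
      intro ε _
      rw [← add_smul, neg_add_cancel, zero_smul]

lemma map_id {V : Type*} [AddCommGroup V] [Module K V] [FiniteDimensional K V]
    {W : Submodule K V} {x : Module.End K V} (hx : InB x W) : W.map x = W := by
  ext v
  constructor
  · rintro ⟨w, hw, rfl⟩; rw [hx w hw]; exact hw
  · intro hv; exact ⟨v, hv, hx v hv⟩

/-- Restriction of an operator to a stable subspace: the rank. -/
lemma rk_Rw {V : Type*} [AddCommGroup V] [Module K V] [FiniteDimensional K V]
    {W : Submodule K V} {x : Module.End K V} (hx : ∀ w ∈ W, x w ∈ W) :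
    MTP.rk (Rw W x) = finrank K (W.map x) := by
  have h : (LinearMap.range (Rw W x)).map W.subtype = W.map x := by
    ext v
    constructor
    · rintro ⟨_, ⟨w, rfl⟩, rfl⟩
      exact ⟨w, w.2, (Rw_coe hx w).symm⟩
    · rintro ⟨w, hw, rfl⟩
      exact ⟨_, ⟨⟨w, hw⟩, rfl⟩, Rw_coe hx ⟨w, hw⟩⟩
  unfold MTP.rk
  rw [← h]
  exact (Submodule.finrank_map_subtype_eq W (LinearMap.range (Rw W x))).symm

/-- The image of an irreducible subspace under a semilinear bijection. -/
def img {θ : Equiv.Perm (m → K)} {σ : K ≃+* K}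
    (hadd : ∀ v w, θ (v + w) = θ v + θ w) (hσ : ∀ (c : K) v, θ (c • v) = σ c • θ v)
    (U : Submodule K (m → K)) : Submodule K (m → K) where
  carrier := {v | θ⁻¹ v ∈ U}
  add_mem' := by
    intro v w hv hw
    change θ⁻¹ (v + w) ∈ U
    rw [GA.add_inv hadd]
    exact U.add_mem hv hw
  zero_mem' := by
    have h := GA.smul_inv' hσ 0 0
    rw [zero_smul, map_zero σ.symm, zero_smul] at h
    change θ⁻¹ 0 ∈ U
    rw [h]
    exact U.zero_mem
  smul_mem' := by
    intro c v hv
    change θ⁻¹ (c • v) ∈ U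
    rw [GA.smul_inv' hσ]
    exact U.smul_mem _ hv

section img
variable {θ : Equiv.Perm (m → K)} {σ : K ≃+* K}
    (hadd : ∀ v w, θ (v + w) = θ v + θ w) (hσ : ∀ (c : K) v, θ (c • v) = σ c • θ v)
    (U : Submodule K (m → K))

lemma mem_img {v : m → K} : v ∈ img hadd hσ U ↔ θ⁻¹ v ∈ U := Iff.rfl

lemma img_mem {v : m → K} : θ v ∈ img hadd hσ U ↔ v ∈ U := by
  rw [mem_img, perm_inv_apply]

/-- The preimage. -/
def pre (U : Submodule K (m → K)) : Submodule K (m → K) where
  carrier := {v | θ v ∈ U}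
  add_mem' := by
    intro v w hv hw
    change θ (v + w) ∈ U
    rw [hadd]
    exact U.add_mem hv hw
  zero_mem' := by
    have h := hσ 0 0
    rw [zero_smul, map_zero σ, zero_smul] at h
    change θ 0 ∈ U
    rw [h]
    exact U.zero_mem
  smul_mem' := by
    intro c v hv
    change θ (c • v) ∈ U
    rw [hσ]
    exact U.smul_mem _ hv

lemma mem_pre {v : m → K} : v ∈ pre hadd hσ U ↔ θ v ∈ U := Iff.rfl

lemma finrank_img : finrank K (img hadd hσ U) = finrank K U := by
  have hr : Module.rank K U = Module.rank K (img hadd hσ U) := by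
    let j : U ≃+ img hadd hσ U :=
      { toFun := fun v => ⟨θ (v : m → K), (img_mem hadd hσ U).mpr v.2⟩
        invFun := fun v => ⟨θ⁻¹ (v : m → K), v.2⟩
        left_inv := by intro v; apply Subtype.ext; exact perm_inv_apply θ _
        right_inv := by intro v; apply Subtype.ext; exact perm_apply_inv θ _
        map_add' := by intro v w; apply Subtype.ext; exact hadd _ _ }
    refine rank_eq_of_equiv_equiv (σ : K → K) j σ.bijective ?_
    intro c v
    apply Subtype.ext
    exact hσ c v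
  unfold finrank
  rw [hr]

end img

/-! ### The basic properties which are needed here -/

section basic
variable {V : Type*} [AddCommGroup V] [Module K V] [FiniteDimensional K V]
  {ω : LinearMap.BilinForm K V} {S : Set (Module.End K V)}
  {T : Set (Module.End K V ≃+* Module.End K V)} {p0 : Module.End K V}

lemma g_mem (D : MStr ω S T p0) {g : Module.End K V} (hg : g ∈ S) : g ∈ AA S T p0 :=
  D.genA _ (fun _ hp => Algebra.subset_adjoin hp) g hg

lemma stab_AA [CharZero K] (D : MStr ω S T p0) {U : Submodule K V} (hU : Stab S U) :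
    Stab (AA S T p0 : Set (Module.End K V)) U := by
  intro a ha
  have ha' : a ∈ Algebra.adjoin K (SC S T p0) := ha
  induction ha' using Algebra.adjoin_induction with
  | mem p hp =>
    intro v hv
    have h1 := hU _ (D.cpt p hp 2 two_ne_zero) v hv
    have h2 : (1 + ((2 : K) - 1) • p) v = v + p v := by
      have : (2 : K) - 1 = 1 := by norm_num
      rw [this, one_smul]; rfl
    rw [h2] at h1
    have h3 := U.sub_mem h1 hv
    rwa [add_sub_cancel_left] at h3
  | algebraMap c =>
    intro v hv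
    rw [Module.algebraMap_end_apply]
    exact U.smul_mem _ hv
  | add x y hx hy hx' hy' => exact fun v hv => U.add_mem (hx' hx v hv) (hy' hy v hv)
  | mul x y hx hy hx' hy' => exact fun v hv => hx' hx _ (hy' hy v hv)

lemma ssA [CharZero K] (D : MStr ω S T p0) : SS (AA S T p0 : Set (Module.End K V)) := by
  intro U hU
  obtain ⟨U', hU', hc⟩ := D.ss U (fun g hg => hU g (g_mem D hg))
  exact ⟨U', stab_AA D hU', hc⟩

lemma tw_mem (D : MStr ω S T p0) {τ : Module.End K V ≃+* Module.End K V} (hτ : τ ∈ T)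
    {a : Module.End K V} (ha : a ∈ AA S T p0) : τ a ∈ AA S T p0 := by
  have ha' : a ∈ Algebra.adjoin K (SC S T p0) := ha
  obtain ⟨σ, hσ⟩ := D.semi τ hτ
  induction ha' using Algebra.adjoin_induction with
  | mem p hp =>
    obtain ⟨τ', hτ', g, hg, h, hh, hgh, hhg, rfl⟩ := hp
    apply Algebra.subset_adjoin
    refine ⟨τ'.trans τ, D.tmul τ hτ τ' hτ', τ g, D.tgrp τ hτ g hg, τ h, D.tgrp τ hτ h hh, ?_, ?_, ?_⟩
    · rw [← map_mul, hgh, map_one]
    · rw [← map_mul, hhg, map_one]
    · rw [map_mul, map_mul]; rfl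
  | algebraMap c =>
    have h1 : algebraMap K (Module.End K V) c = c • (1 : Module.End K V) :=
      Algebra.algebraMap_eq_smul_one c
    rw [h1, hσ, map_one]
    exact Subalgebra.smul_mem _ (Subalgebra.one_mem _) _
  | add x y hx hy hx' hy' =>
    rw [map_add]
    exact Subalgebra.add_mem _ (hx' hx) (hy' hy)
  | mul x y hx hy hx' hy' =>
    rw [map_mul]
    exact Subalgebra.mul_mem _ (hx' hx) (hy' hy)

lemma tw_bl (D : MStr ω S T p0) {τ : Module.End K V ≃+* Module.End K V} (hτ : τ ∈ T)
    {ε : Module.End K V} (hε : Bl (AA S T p0) ε) : Bl (AA S T p0) (τ ε) := by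
  have hs : ∀ a ∈ AA S T p0, τ.symm a ∈ AA S T p0 := fun a ha => tw_mem D (D.tinv τ hτ) ha
  refine ⟨tw_mem D hτ hε.mem, ?_, ?_, ?_, ?_⟩
  · intro a ha
    have h1 := congrArg τ (hε.cen _ (hs a ha))
    rwa [map_mul, map_mul, RingEquiv.apply_symm_apply] at h1
  · rw [← map_mul, hε.idem]
  · intro h
    apply hε.ne
    apply τ.injective
    rw [h, map_zero]
  · intro e he hc hi
    have h1 := hε.min (τ.symm e) (hs e he) (by
      intro a ha
      apply τ.injective
      rw [map_mul, map_mul, RingEquiv.apply_symm_apply]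
      exact hc _ (tw_mem D hτ ha)) (by rw [← map_mul, hi])
    rcases h1 with h | h
    · left
      have h2 := congrArg τ h
      rwa [map_mul, RingEquiv.apply_symm_apply, map_zero] at h2
    · right
      have h2 := congrArg τ h
      rwa [map_mul, RingEquiv.apply_symm_apply] at h2

end basic

end MX

open MX

variable {K : Type*} [Field K] [IsAlgClosed K] [CharZero K] {m : Type*} [Fintype m]
  [DecidableEq m] {Γ : Subgroup (Equiv.Perm (m → K))} {J : Matrix m m K}
  {G : Subgroup (Matrix.GeneralLinearGroup m K)} {π : Matrix m m K}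

/-- MX1: the abstract data of a strong pair. -/
theorem mstr (D : IsStrongMTPair Γ J G π) (hr : IsReductiveRep G) [Nonempty m] :
    MStr (fJ J) (GE G) (TE Γ) (Matrix.toLin' π) where
  nt := inferInstance
  nd := GA.fJ_nd D.det
  alt := GA.fJ_alt D.skew
  one := ⟨1, G.one_mem, by rw [Units.val_one, Matrix.toLin'_one]; rfl⟩
  mul := by
    rintro _ ⟨g, hg, rfl⟩ _ ⟨h, hh, rfl⟩
    exact ⟨g * h, G.mul_mem hg hh, by rw [Units.val_mul, Matrix.toLin'_mul]; rfl⟩
  inv := by
    rintro _ ⟨g, hg, rfl⟩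
    exact ⟨_, GA.toLin_mem (G.inv_mem hg), GA.toLin_mul_inv g, GA.toLin_inv_mul g⟩
  sim := by
    rintro _ ⟨g, hg, rfl⟩
    obtain ⟨c, hc⟩ := D.sim g hg
    refine ⟨c, fun v w => ?_⟩
    rw [GA.fJ_apply, GA.fJ_apply, Matrix.toLin'_apply, Matrix.toLin'_apply]
    have e : ((g : Matrix m m K).mulVec v) ⬝ᵥ J.mulVec ((g : Matrix m m K).mulVec w) =
        v ⬝ᵥ ((g : Matrix m m K).transpose * J * g).mulVec w := by
      rw [← Matrix.mulVec_mulVec, ← Matrix.mulVec_mulVec, Matrix.dotProduct_mulVec v,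
        Matrix.vecMul_transpose]
    rw [e, hc, Matrix.smul_mulVec, dotProduct_smul, smul_eq_mul]
  ss := by
    intro U hU
    obtain ⟨U', hU', hc⟩ := hr U (stab_iff_sub.mp hU)
    exact ⟨U', stab_iff_sub.mpr hU', hc⟩
  semi := by
    rintro τ ⟨θ, hθ, hτ⟩
    obtain ⟨σ, hadd, hσ⟩ := D.semi θ hθ
    exact ⟨σ, GA.ind_semi hτ hσ⟩
  rk := by
    rintro τ ⟨θ, hθ, hτ⟩ x
    obtain ⟨σ, hadd, hσ⟩ := D.semi θ hθ
    exact GA.ind_rk hτ hadd hσ x
  tone := ⟨1, Γ.one_mem, fun x v => rfl⟩
  tmul := by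
    rintro τ ⟨θ, hθ, hτ⟩ τ' ⟨θ', hθ', hτ'⟩
    refine ⟨θ * θ', Γ.mul_mem hθ hθ', fun x v => ?_⟩
    rw [RingEquiv.trans_apply, Equiv.Perm.mul_apply, Equiv.Perm.mul_apply, hτ, hτ']
  tinv := by
    rintro τ ⟨θ, hθ, hτ⟩
    refine ⟨θ⁻¹, Γ.inv_mem hθ, fun x v => ?_⟩
    apply θ.injective
    rw [← hτ, RingEquiv.apply_symm_apply, perm_apply_inv, perm_apply_inv]
  tgrp := by
    rintro τ ⟨θ, hθ, hτ⟩ _ ⟨g, hg, rfl⟩
    obtain ⟨g', hg', h⟩ := D.norm θ hθ g hg
    exact ⟨g', hg', GA.ind_res hτ h⟩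
  idem := by
    have h1 := congrArg Matrix.toLin' D.coch.1
    rwa [Matrix.toLin'_mul] at h1
  cpt := by
    intro p hp t ht
    obtain ⟨P, hPc, rfl⟩ := GA.of_sc D hp
    obtain ⟨h, hh, hht⟩ := (smat_cochar D hPc).2 t ht
    exact ⟨h, hh, by rw [hht, GA.one_param]⟩
  genA := by
    rintro M hM _ ⟨g, hg, rfl⟩
    let N : Submodule K (Matrix m m K) :=
      (Subalgebra.toSubmodule M).comap (Matrix.toLin' : Matrix m m K ≃ₗ[K] _).toLinearMap
    have hN : ∀ A : Matrix m m K, A ∈ N ↔ Matrix.toLin' A ∈ M := fun A => Iff.rfl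
    let H : Subgroup (Matrix.GeneralLinearGroup m K) :=
      { carrier := {g | g ∈ G ∧ (g : Matrix m m K) ∈ N}
        one_mem' := by
          refine ⟨G.one_mem, ?_⟩
          rw [hN, Units.val_one, Matrix.toLin'_one]
          exact M.one_mem
        mul_mem' := by
          rintro g g' ⟨hg, hA⟩ ⟨hg', hB⟩
          refine ⟨G.mul_mem hg hg', ?_⟩
          rw [hN] at hA hB ⊢
          rw [Units.val_mul, Matrix.toLin'_mul]
          exact M.mul_mem hA hB
        inv_mem' := by
          rintro g ⟨hg, hA⟩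
          refine ⟨G.inv_mem hg, ?_⟩
          rw [hN] at hA ⊢
          exact inv_mem_subalgebra (A := Module.End K (m → K)) M hA (GA.toLin_inv_mul g) }
    have hHclosed : ZariskiClosed H := closed_of_linear G H D.closed N fun g => Iff.rfl
    have hGH := D.gen H hHclosed (by
      intro P hPc
      obtain ⟨h1, h2⟩ := smat_cochar D hPc
      refine ⟨h1, fun t ht => ?_⟩
      obtain ⟨h, hh, hht⟩ := h2 t ht
      refine ⟨h, ⟨hh, ?_⟩, hht⟩
      rw [hN, hht, GA.one_param]
      exact M.add_mem M.one_mem (M.smul_mem (hM _ (GA.sc_of D hPc)) _))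
    exact (hGH hg).2
  genB := by
    rintro M hM _ ⟨γ, hγ, rfl⟩ b - hab hba x hx
    let N : Submodule K (Matrix m m K) :=
      M.comap (Matrix.toLin' : Matrix m m K ≃ₗ[K] _).toLinearMap
    have hN : ∀ A : Matrix m m K, A ∈ N ↔ Matrix.toLin' A ∈ M := fun A => Iff.rfl
    have hb := GA.linv_unique hba
    have key := smat_normal D N (by
      rintro P hPc t ht h hh hht X hX
      rw [hN] at hX ⊢
      have hpsc := GA.sc_of D hPc
      have hpp : Matrix.toLin' P * Matrix.toLin' P = Matrix.toLin' P := by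
        have h1 := congrArg Matrix.toLin' (smat_cochar D hPc).1
        rwa [Matrix.toLin'_mul] at h1
      have h1 : Matrix.toLin' (h : Matrix m m K) = 1 + (t - 1) • Matrix.toLin' P := by
        rw [hht, GA.one_param]
      have h2 : 1 + (t⁻¹ - 1) • Matrix.toLin' P =
          Matrix.toLin' ((h⁻¹ : Matrix.GeneralLinearGroup m K) : Matrix m m K) := by
        apply GA.linv_unique
        rw [h1]
        have := GA.idem_inv hpp (inv_ne_zero ht)
        rwa [inv_inv] at this
      rw [Matrix.toLin'_mul, Matrix.toLin'_mul]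
      have h3 := hM _ hpsc t ht _ hX
      rw [← h1, h2] at h3
      exact h3) hγ (X := LinearMap.toMatrix' x) (by
      rw [hN, Matrix.toLin'_toMatrix']; exact hx)
    rw [hN, Matrix.toLin'_mul, Matrix.toLin'_mul, Matrix.toLin'_toMatrix', ← hb] at key
    exact key

/-- MX3: square zero elements exponentiate into the group. -/
theorem exp_mem (D : IsStrongMTPair Γ J G π) (hr : IsReductiveRep G) [Nonempty m]
    {x : Module.End K (m → K)} (hx : x ∈ Submodule.span K
      {w | ∃ y ∈ ML (GE G) (TE Γ) (Matrix.toLin' π), ∃ z ∈ ML (GE G) (TE Γ) (Matrix.toLin' π),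
        w = y * z - z * y}) (hxx : x * x = 0) : 1 + x ∈ GE G := by
  have h1 : LinearMap.toMatrix' x ∈ lieOf (Matrix.stdBasis K m m) (gM G) := by
    refine Submodule.span_induction (p := fun x _ => LinearMap.toMatrix' x ∈
      lieOf (Matrix.stdBasis K m m) (gM G)) ?_ ?_ ?_ ?_ hx
    · rintro _ ⟨x, hx, y, hy, rfl⟩
      exact (gb_br (ml_le D hx) (ml_le D hy)).1
    · rw [map_zero]; exact lieOf_zero
    · intro x y _ _ hx hy
      rw [map_add]; exact lieOf_add hx hy
    · intro c x _ hx
      rw [map_smul]; exact lieOf_smul c hx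
  have h2 : LinearMap.toMatrix' x * LinearMap.toMatrix' x = 0 := by
    rw [← LinearMap.toMatrix'_mul, hxx, map_zero]
  obtain ⟨g, hg, hgx⟩ := gb_exp D.closed h1 h2
  refine ⟨g, hg, ?_⟩
  rw [hgx, map_add, Matrix.toLin'_one, Matrix.toLin'_toMatrix']
  rfl

/-- MX2: bad places of irreducible subrepresentations give bad places of blocks. -/
theorem badE (D : IsStrongMTPair Γ J G π) (hr : IsReductiveRep G) [Nonempty m]
    {W : Submodule K (m → K)} {ε : Module.End K (m → K)}
    (hW : Irr (AA (GE G) (TE Γ) (Matrix.toLin' π) : Set (Module.End K (m → K))) W)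
    (hε : Bl (AA (GE G) (TE Γ) (Matrix.toLin' π)) ε) (hWε : InB ε W) {r : ℕ} (hr0 : 0 < r)
    (hb : BadAt Γ G π W r) :
    ∃ k, 0 < k ∧ BadE (GE G) (TE Γ) (Matrix.toLin' π) ε (k * r) ∧
      ∀ x ∈ Ae (AA (GE G) (TE Γ) (Matrix.toLin' π)) ε, MTP.rk x = k * MTP.rk (Rw W x) := by
  classical
  have M := mstr D hr
  set A := AA (GE G) (TE Γ) (Matrix.toLin' π) with hA
  have hss : SS (A : Set (Module.End K (m → K))) := MX.ssA M
  obtain ⟨k, hk, -, hrk⟩ := (hss.rs hε hW hWε).mult
  have hε_rk : MTP.rk ε = k * finrank K W := by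
    rw [hrk ε ⟨hε.mem, hε.idem⟩, rk_Rw (fun w hw => by rw [hWε w hw]; exact hw), map_id hWε]
  have hWpos : 0 < finrank K W := by
    rw [Nat.pos_iff_ne_zero]
    intro h
    exact hW.ne (Submodule.finrank_eq_zero.mp h)
  refine ⟨k, hk, ?_, hrk⟩
  rintro τ ⟨θ, hθ, hτ⟩ E
  let b : m → (m → K) := fun i => Pi.single i 1
  let E0 : Finset (m → K) := (Finset.univ.image b) ∪
    E.biUnion fun x => Finset.univ.image fun i => x (b i)
  obtain ⟨γ', hγ', hE, u, hu, P, hP, hPu, huP, hcomm, hrank⟩ := hb θ hθ E0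
  obtain ⟨σ, hadd, hσ⟩ := D.semi θ hθ
  obtain ⟨σ', hadd', hσ'⟩ := D.semi γ' hγ'
  have hN : Matrix.toLin' (u : Matrix m m K) - 1 = ((u : Matrix m m K) - 1).mulVecLin := by
    apply LinearMap.ext
    intro v
    rw [LinearMap.sub_apply, Matrix.toLin'_apply, Matrix.mulVecLin_apply, Matrix.sub_mulVec,
      Matrix.one_mulVec, Module.End.one_apply]
  have hN' : Matrix.toLin' (u : Matrix m m K) - 1 = Matrix.toLin' ((u : Matrix m m K) - 1) := by
    rw [hN]; rfl
  refine ⟨GA.cE hadd' hσ', ⟨γ', hγ', GA.cE_apply hadd' hσ'⟩, ?_,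
    Matrix.toLin' (u : Matrix m m K), GA.toLin_mem hu, Matrix.toLin' P, GA.sc_of D hP, ?_, ?_,
    GA.ind_res (GA.cE_apply hadd' hσ') hcomm, ?_⟩
  · intro x hx
    have h1 : ∀ i, γ' (b i) = θ (b i) := by
      intro i
      apply hE
      exact Finset.mem_union_left _ (Finset.mem_image_of_mem _ (Finset.mem_univ i))
    have h2 : ∀ i, γ' (x (b i)) = θ (x (b i)) := by
      intro i
      apply hE
      apply Finset.mem_union_right
      rw [Finset.mem_biUnion]
      exact ⟨x, hx, Finset.mem_image_of_mem (fun i => x (b i)) (Finset.mem_univ i)⟩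
    exact GA.agree hadd hσ hτ (GA.cE_apply hadd' hσ') h1 h2
  · rw [hN', ← GA.toLin_mul, hPu]
  · rw [hN', ← GA.toLin_mul, huP, map_zero]
  · intro τ'' hτ''
    have hτm := hτ''
    obtain ⟨η, hη, hητ⟩ := hτ''
    obtain ⟨s, ha, hs⟩ := D.semi η hη
    set U := img ha hs W with hU
    have hεU : InB (τ'' ε) U := by
      intro v hv
      have := hητ ε (η⁻¹ v)
      rw [perm_apply_inv] at this
      rw [this, hWε _ hv, perm_apply_inv]
    have hsymm : ∀ a ∈ A, τ''.symm a ∈ A := fun a ha' => MX.tw_mem M (M.tinv _ hτm) ha'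
    have hUirr : Irr (A : Set (Module.End K (m → K))) U := by
      refine ⟨?_, ?_, ?_⟩
      · intro h0
        have h1 := finrank_img ha hs W
        rw [← hU, h0, finrank_bot] at h1
        omega
      · intro a haA v hv
        have e : a v = η ((τ''.symm a) (η⁻¹ v)) := by
          rw [← hητ, RingEquiv.apply_symm_apply, perm_apply_inv]
        rw [e]
        exact (img_mem ha hs W).mpr (hW.st _ (hsymm a haA) _ hv)
      · intro U' hU' hst
        have hle : pre ha hs U' ≤ W := by
          intro v hv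
          have h1 := hU' ((mem_pre ha hs U').mp hv)
          exact (img_mem ha hs W).mp h1
        have hst' : Stab (A : Set (Module.End K (m → K))) (pre ha hs U') := by
          intro a haA v hv
          rw [mem_pre, ← hητ]
          exact hst _ (MX.tw_mem M hτm haA) _ hv
        rcases hW.irr _ hle hst' with h | h
        · left
          rw [Submodule.eq_bot_iff]
          intro v hv
          have h1 : η⁻¹ v ∈ pre ha hs U' := by rw [mem_pre, perm_apply_inv]; exact hv
          rw [h, Submodule.mem_bot] at h1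
          have h2 : v = η 0 := by rw [← h1, perm_apply_inv]
          have h3 := hs 0 0
          rw [zero_smul, map_zero s, zero_smul] at h3
          rw [h2, h3]
        · right
          apply le_antisymm hU'
          intro v hv
          have h1 : η⁻¹ v ∈ W := hv
          rw [← h, mem_pre, perm_apply_inv] at h1
          exact h1
    obtain ⟨k', hk', -, hrk'⟩ := (hss.rs (MX.tw_bl M hτm hε) hUirr hεU).mult
    have hbl := MX.tw_bl M hτm hε
    have hdim : finrank K U = finrank K W := finrank_img ha hs W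
    have hkk : k' = k := by
      have h1 : MTP.rk (τ'' ε) = k' * finrank K U := by
        rw [hrk' (τ'' ε) ⟨hbl.mem, hbl.idem⟩, rk_Rw (fun w hw => by rw [hεU w hw]; exact hw),
          map_id hεU]
      rw [M.rk _ hτm, hε_rk, hdim] at h1
      exact (Nat.eq_of_mul_eq_mul_right hWpos h1).symm
    have huA : Matrix.toLin' (u : Matrix m m K) - 1 ∈ A :=
      A.sub_mem (MX.g_mem M (GA.toLin_mem hu)) A.one_mem
    have hmem : (Matrix.toLin' (u : Matrix m m K) - 1) * τ'' ε ∈ Ae A (τ'' ε) :=
      ⟨A.mul_mem huA hbl.mem, by rw [mul_assoc, hbl.idem]⟩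
    rw [hrk' _ hmem, hkk]
    congr 1
    rw [rk_Rw (fun w hw => hUirr.st _ hmem.1 w hw)]
    rw [← hrank η hη U (fun v => (img_mem ha hs W).symm)]
    have hmap : U.map ((Matrix.toLin' (u : Matrix m m K) - 1) * τ'' ε) =
        U.map ((u : Matrix m m K) - 1).mulVecLin := by
      rw [← hN]
      ext v
      constructor
      · rintro ⟨w, hw, rfl⟩
        exact ⟨w, hw, by rw [Module.End.mul_apply, hεU w hw]⟩
      · rintro ⟨w, hw, rfl⟩
        exact ⟨w, hw, by rw [Module.End.mul_apply, hεU w hw]⟩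
    rw [hmap]

end AV
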